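import Pool.Agent.Helper79.AL.St1

/-!
# Project AL (MP_2b6189_al), module FCB: the calculus of fixed vectors
-/

set_option autoImplicit false

namespace Pool.Agent.Helper16.AL

open Matrix ComplexConjugate Pool.Agent.Helper94.YG
open Pool.Agent.Helper94.YF hiding StORB
open Pool.Agent.Helper89.OS Pool.Agent.Helper89.OC Pool.Agent.Helper79.AL

private theorem mulE {L : ℕ} (A B : SL L) (i j : Fin 2) :
    (A * B).1 i j = A.1 i 0 * B.1 0 j + A.1 i 1 * B.1 1 j := by
  change (A.1 * B.1) i j = _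
  rw [Matrix.mul_apply, Fin.sum_univ_two]

private theorem ext4 {L : ℕ} {A B : SL L} (h1 : A.1 0 0 = B.1 0 0) (h2 : A.1 0 1 = B.1 0 1)
    (h3 : A.1 1 0 = B.1 1 0) (h4 : A.1 1 1 = B.1 1 1) : A = B := by
  apply Subtype.ext
  ext i j
  fin_cases i <;> fin_cases j
  · exact h1
  · exact h2
  · exact h3
  · exact h4

private theorem u00 {L : ℕ} (z : ZMod L) : (U z).1 0 0 = 1 := rfl
private theorem u01 {L : ℕ} (z : ZMod L) : (U z).1 0 1 = z := rfl
private theorem u10 {L : ℕ} (z : ZMod L) : (U z).1 1 0 = 0 := rfl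
private theorem u11 {L : ℕ} (z : ZMod L) : (U z).1 1 1 = 1 := rfl
private theorem l00 {L : ℕ} (z : ZMod L) : (Lo z).1 0 0 = 1 := rfl
private theorem l01 {L : ℕ} (z : ZMod L) : (Lo z).1 0 1 = 0 := rfl
private theorem l10 {L : ℕ} (z : ZMod L) : (Lo z).1 1 0 = z := rfl
private theorem l11 {L : ℕ} (z : ZMod L) : (Lo z).1 1 1 = 1 := rfl

/-- the relation `U (-c) * s2 c = s2 c * Lo c` for an idempotent `c` -/
private theorem rel {L : ℕ} {c : ZMod L} (hc : c * c = c) : U (-c) * s2 c = s2 c * Lo c := by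
  apply ext4 <;>
  · simp only [s2, mulE, u00, u01, u10, u11, l00, l01, l10, l11]
    grind

variable {I : Type} [Fintype I] [DecidableEq I] (Z : CentreData I)

private theorem mv (g h : SL Z.L) (v : I → ℂ) :
    Z.rho (g * h) *ᵥ v = Z.rho g *ᵥ (Z.rho h *ᵥ v) := by
  rw [map_mul, Matrix.mulVec_mulVec]

private theorem cancel (g : SL Z.L) {v w : I → ℂ} (h : Z.rho g *ᵥ v = Z.rho g *ᵥ w) : v = w := by
  have h1 : Z.rho (g⁻¹ * g) *ᵥ v = Z.rho (g⁻¹ * g) *ᵥ w := by
    rw [mv, mv, h]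
  rw [inv_mul_cancel, map_one, Matrix.one_mulVec, Matrix.one_mulVec] at h1
  exact h1

/-- a vector supported on `tw c = 1` is fixed by `U (-c)` -/
private theorem fixU (fU : ∀ z, Z.rho (U z) = Matrix.diagonal (Z.tw z))
    (fadd : ∀ x y i, Z.tw (x + y) i = Z.tw x i * Z.tw y i) (f0 : ∀ i, Z.tw 0 i = 1)
    (c : ZMod Z.L) (v : I → ℂ) (hv : ∀ k, v k ≠ 0 → Z.tw c k = 1) :
    Z.rho (U (-c)) *ᵥ v = v := by
  funext k
  rw [fU, Matrix.mulVec_diagonal]
  by_cases h : v k = 0
  · rw [h, mul_zero]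
  · have h1 := fadd c (-c) k
    rw [add_neg_cancel, f0, hv k h, one_mul] at h1
    rw [← h1, one_mul]

/-- **AL MODULE FCB.** -/
theorem hFCB : StFCB := by
  intro hFCA I _ _ Z
  have hA := hFCA I Z
  obtain ⟨fU, -, fadd, f0, -⟩ := Pool.Agent.Helper36.YF.hFUS Pool.Agent.Helper88.YF.hDUA I
    Z.toCentreRep
  have hs2 : ∀ (c c' : ZMod Z.L) (v : I → ℂ), c * c = c → c' * c' = c' → c * c' = 0 →
      Fx Z c v → Fx Z c (Z.rho (s2 c') *ᵥ v) := by
    intro c c' v hc hc' hcc hv
    refine ⟨?_, ?_⟩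
    · rw [Matrix.mulVec_mulVec, hA.com c c' hc hc' hcc, ← Matrix.mulVec_mulVec, hv.1]
    · intro k hk
      have hex : ∃ i, Z.rho (s2 c') k i * v i ≠ 0 := by
        by_contra hcon
        simp only [not_exists, not_not] at hcon
        apply hk
        rw [Matrix.mulVec, dotProduct]
        exact Finset.sum_eq_zero fun i _ => hcon i
      obtain ⟨i, hi⟩ := hex
      have h1 : Z.rho (s2 c') k i ≠ 0 := left_ne_zero_of_mul hi
      have h2 : v i ≠ 0 := right_ne_zero_of_mul hi
      rw [hA.supp c c' hc hc' hcc k i h1]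
      exact hv.2 i h2
  refine ⟨?_, ?_, ?_, ?_, hs2, ?_, ?_⟩
  · -- of
    intro c v hc hv hu
    have e1 : Z.rho (U (-c)) *ᵥ v = v := fixU Z fU fadd f0 c v hv
    have e2 : Z.rho (U (-c)) *ᵥ (Z.rho (s2 c) *ᵥ v) = Z.rho (s2 c) *ᵥ v :=
      fixU Z fU fadd f0 c _ hu
    have e3 : Z.rho (Lo c) *ᵥ v = v := by
      apply cancel Z (s2 c)
      rw [← mv, ← rel hc, mv, e2]
    refine ⟨?_, hv⟩
    have e4 : Z.rho (s2 c) *ᵥ v = Z.rho (U (-c)) *ᵥ (Z.rho (Lo c) *ᵥ (Z.rho (U (-c)) *ᵥ v)) := by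
      rw [← mv, ← mv]
      rfl
    rw [e4, e1, e3, e1]
  · -- add
    intro c v w hv hw
    refine ⟨?_, ?_⟩
    · have e : (fun k => v k + w k) = v + w := rfl
      rw [e, Matrix.mulVec_add, hv.1, hw.1]
    · intro k hk
      by_cases h : v k = 0
      · apply hw.2 k
        intro h2
        apply hk
        simp [h, h2]
      · exact hv.2 k h
  · -- smul
    intro c a v hv
    refine ⟨?_, ?_⟩
    · have e : (fun k => a * v k) = a • v := rfl
      rw [e, Matrix.mulVec_smul, hv.1]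
    · intro k hk
      exact hv.2 k (right_ne_zero_of_mul hk)
  · -- sum
    intro c f hf
    refine ⟨?_, ?_⟩
    · funext i
      have h1 : ∀ j, Z.rho (s2 c) i j * f j = if i = j then f j else 0 := by
        intro j
        by_cases h : f j = 0
        · rw [h]; simp
        · have h2 := congrFun (hf j h).1 i
          have h3 : (Z.rho (s2 c) *ᵥ ev j) i = Z.rho (s2 c) i j := by
            rw [Matrix.mulVec, dotProduct]
            simp [ev]
          rw [h3] at h2
          rw [h2]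
          simp [ev]
      rw [Matrix.mulVec, dotProduct]
      rw [Finset.sum_congr rfl fun j _ => h1 j]
      simp
    · intro k hk
      apply (hf k hk).2 k
      simp [ev]
  · -- proj
    intro c c' φ v hc hc' hcc hv
    refine ⟨?_, ?_⟩
    · funext i
      have hcc' : c' * c = 0 := by rw [mul_comm]; exact hcc
      have h0 := congrFun hv.1 i
      rw [Matrix.mulVec, dotProduct] at h0
      rw [Matrix.mulVec, dotProduct]
      have h1 : ∀ k, Z.rho (s2 c) i k * (φ (Z.tw c' k) * v k) =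
          φ (Z.tw c' i) * (Z.rho (s2 c) i k * v k) := by
        intro k
        by_cases h : Z.rho (s2 c) i k = 0
        · rw [h]; ring
        · rw [hA.supp c' c hc' hc hcc' i k h]; ring
      rw [Finset.sum_congr rfl fun k _ => h1 k, ← Finset.mul_sum, h0]
    · intro k hk
      exact hv.2 k (right_ne_zero_of_mul hk)
  · -- Sm
    intro c v hc hv
    rw [hA.Sm_eq c hc, ← Matrix.mulVec_mulVec, hv.1]
    apply hs2 c (1 - c) v hc _ _ hv
    · linear_combination hc
    · linear_combination -hc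

end Pool.Agent.Helper16.AL
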